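import Pool.Agent.R841.IDeg.Points

set_option autoImplicit false
set_option linter.unusedSectionVars false

namespace Pool.Agent.R841.IDeg

open Finset

universe u

variable {K : Type u} [Field K] {ι : Type} [Fintype ι] [DecidableEq ι]

/-- the linear combination map -/
def lc {n : ℕ} (q : ι → Fin (n + 1) → K) : (ι → K) →ₗ[K] (Fin (n + 1) → K) where
  toFun c := ∑ l, c l • q l
  map_add' c d := by
    rw [← Finset.sum_add_distrib]
    exact Finset.sum_congr rfl (fun l _ => by rw [Pi.add_apply, add_smul])
  map_smul' r c := by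
    rw [RingHom.id_apply, Finset.smul_sum]
    exact Finset.sum_congr rfl (fun l _ => by rw [Pi.smul_apply, smul_eq_mul, mul_smul])

theorem lc_apply {n : ℕ} (q : ι → Fin (n + 1) → K) (c : ι → K) : lc q c = ∑ l, c l • q l := rfl

theorem exists_rel {n : ℕ} (hcard : Fintype.card ι = n + 3) (q : ι → Fin (n + 1) → K) (j : ι) :
    ∃ c : ι → K, c ≠ 0 ∧ c j = 0 ∧ ∑ l, c l • q l = 0 := by
  have h1 : ((lc q).prod (LinearMap.proj j : (ι → K) →ₗ[K] K)).ker ≠ ⊥ := by
    apply LinearMap.ker_ne_bot_of_finrank_lt
    rw [Module.finrank_prod]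
    simp [hcard]
  obtain ⟨c, hc, hc0⟩ := (Submodule.ne_bot_iff _).1 h1
  have hc' : (lc q c, c j) = (0, 0) := hc
  rw [Prod.mk.injEq] at hc'
  exact ⟨c, hc0, hc'.2, hc'.1⟩

theorem lc_surj {n : ℕ} (hcard : Fintype.card ι = n + 3) (q : ι → Fin (n + 1) → K)
    (hGP : ∀ i j, i ≠ j → ∀ c : ι → K, c i = 0 → c j = 0 → ∑ l, c l • q l = 0 → c = 0) :
    Function.Surjective (lc q) := by
  obtain ⟨i, j, hij⟩ : ∃ i j : ι, i ≠ j := by
    have : 1 < Fintype.card ι := by omega
    exact Fintype.exists_pair_of_one_lt_card this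
  have h1 := LinearMap.finrank_range_add_finrank_ker (lc q)
  rw [Module.finrank_fintype_fun_eq_card, hcard] at h1
  have h2 : Module.finrank K (lc q).ker ≤ 2 := by
    let f : (lc q).ker →ₗ[K] (K × K) :=
      ((LinearMap.proj i : (ι → K) →ₗ[K] K).prod (LinearMap.proj j)).comp (lc q).ker.subtype
    have hf : Function.Injective f := by
      rw [← LinearMap.ker_eq_bot, LinearMap.ker_eq_bot']
      rintro ⟨c, hc⟩ h
      have h3 : c i = 0 ∧ c j = 0 := by
        have h4 : f ⟨c, hc⟩ = (c i, c j) := rfl
        rw [h4, Prod.mk_eq_zero] at h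
        exact h
      have h5 := hGP i j hij c h3.1 h3.2 (by rw [← lc_apply]; exact hc)
      exact Subtype.ext h5
    have h3 := LinearMap.finrank_le_finrank_of_injective hf
    rw [Module.finrank_prod] at h3
    simpa using h3
  have h3 : Module.finrank K (lc q).range = n + 1 := by
    apply le_antisymm
    · have := Submodule.finrank_le (lc q).range
      simpa using this
    · omega
  rw [← LinearMap.range_eq_top]
  apply Submodule.eq_top_of_finrank_eq
  rw [h3]
  simp

theorem exists_cfg [Infinite K] {n : ℕ} (hcard : Fintype.card ι = n + 3)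
    (q : ι → Fin (n + 1) → K)
    (hGP : ∀ i j, i ≠ j → ∀ c : ι → K, c i = 0 → c j = 0 → ∑ l, c l • q l = 0 → c = 0) :
    ∃ (α : ι → K) (s : ι → K), (∀ i, α i ≠ 0) ∧ Cfg s (fun i => α i • q i) := by
  classical
  obtain ⟨i0, j0, hij⟩ : ∃ i j : ι, i ≠ j := by
    have : 1 < Fintype.card ι := by omega
    exact Fintype.exists_pair_of_one_lt_card this
  obtain ⟨r1, h10, h1j, h1⟩ := exists_rel hcard q j0
  obtain ⟨r2, h20, h2i, h2⟩ := exists_rel hcard q i0
  have hr1 : ∀ l, l ≠ j0 → r1 l ≠ 0 := fun l hl h => h10 (hGP l j0 hl r1 h h1j h1)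
  have hr2 : ∀ l, l ≠ i0 → r2 l ≠ 0 := fun l hl h => h20 (hGP l i0 hl r2 h h2i h2)
  obtain ⟨x, hx⟩ := Infinite.exists_notMem_finset
    (insert (0 : K) (Finset.univ.image (fun l => -(r1 l) / r2 l)))
  rw [Finset.mem_insert, not_or, Finset.mem_image] at hx
  obtain ⟨hx0, hx⟩ := hx
  push Not at hx
  set α : ι → K := fun l => r1 l + x * r2 l with hα
  have hα0 : ∀ l, α l ≠ 0 := by
    intro l h
    by_cases hl : l = i0
    · subst hl
      rw [hα] at h
      simp only [h2i, mul_zero, add_zero] at h
      exact hr1 l hij h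
    · have h3 := hr2 l hl
      apply hx l (Finset.mem_univ l)
      rw [hα] at h
      simp only at h
      field_simp
      linear_combination -h
  have hαrel : ∑ l, α l • q l = 0 := by
    have h3 : ∑ l, α l • q l = ∑ l, r1 l • q l + x • ∑ l, r2 l • q l := by
      rw [Finset.smul_sum, ← Finset.sum_add_distrib]
      apply Finset.sum_congr rfl
      intro l _
      rw [hα]
      simp only [add_smul, mul_smul]
    rw [h3, h1, h2, smul_zero, add_zero]
  set s : ι → K := fun l => r2 l / α l with hs
  have hsα : ∀ l, s l * α l = r2 l := fun l => div_mul_cancel₀ _ (hα0 l)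
  have hinj : Function.Injective s := by
    intro i j hsij
    by_contra hne
    have h3 : (fun l => r2 l - s i * α l) = 0 := by
      apply hGP i j hne
      · change r2 i - s i * α i = 0
        rw [hsα]; ring
      · change r2 j - s i * α j = 0
        rw [hsij, hsα]; ring
      · have h4 : ∑ l, (r2 l - s i * α l) • q l = ∑ l, r2 l • q l - s i • ∑ l, α l • q l := by
          rw [Finset.smul_sum, ← Finset.sum_sub_distrib]
          apply Finset.sum_congr rfl
          intro l _
          rw [sub_smul, mul_smul]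
        rw [h4, h2, hαrel, smul_zero, sub_zero]
    have h5 := congrFun h3 i0
    simp only [h2i, Pi.zero_apply, zero_sub, neg_eq_zero, mul_eq_zero] at h5
    have h6 : s i = 0 := h5.resolve_right (hα0 i0)
    apply h20
    funext l
    have h7 := congrFun h3 l
    simpa [h6] using h7
  refine ⟨α, s, hα0, hinj, hαrel, ?_, ?_, ?_⟩
  · have h3 : ∑ i, s i • α i • q i = ∑ i, r2 i • q i := by
      apply Finset.sum_congr rfl
      intro i _
      rw [← mul_smul, hsα]
    rw [h3, h2]
  · intro v
    obtain ⟨c, hc⟩ := lc_surj hcard q hGP v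
    refine ⟨fun l => c l / α l, ?_⟩
    rw [← hc, lc_apply]
    apply Finset.sum_congr rfl
    intro l _
    rw [← mul_smul, div_mul_cancel₀ _ (hα0 l)]
  · intro c hc
    have hsd : s i0 - s j0 ≠ 0 := sub_ne_zero.2 (hinj.ne hij)
    set v := (c i0 - c j0) / (s i0 - s j0) with hv
    set u := c i0 - v * s i0 with hu
    refine ⟨u, v, ?_⟩
    have h3 : (fun l => (c l - u - v * s l) * α l) = 0 := by
      apply hGP i0 j0 hij
      · change (c i0 - u - v * s i0) * α i0 = 0
        rw [hu]; ring
      · change (c j0 - u - v * s j0) * α j0 = 0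
        have h4 : v * (s i0 - s j0) = c i0 - c j0 := div_mul_cancel₀ _ hsd
        rw [hu]
        linear_combination α j0 * h4
      · have h4 : ∑ l, ((c l - u - v * s l) * α l) • q l =
            ∑ l, c l • α l • q l - u • ∑ l, α l • q l - v • ∑ l, r2 l • q l := by
          rw [Finset.smul_sum, Finset.smul_sum, ← Finset.sum_sub_distrib,
            ← Finset.sum_sub_distrib]
          apply Finset.sum_congr rfl
          intro l _
          rw [← hsα l, ← mul_smul, ← mul_smul, ← mul_smul, ← sub_smul, ← sub_smul]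
          congr 1
          ring
        rw [h4, hc, hαrel, h2]
        simp
    intro l
    have h5 := congrFun h3 l
    simp only [Pi.zero_apply, mul_eq_zero] at h5
    have h6 := h5.resolve_right (hα0 l)
    linear_combination h6

end Pool.Agent.R841.IDeg
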