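import Mathlib

/-!
# Standard Cremona transformations and `n + 3` points

Forms on `P^n` are written as polynomials `G` in `n + 3` variables `y_i`, invariant under the
translations by `(1, ..., 1)` and by `(s_i)`.
-/

set_option autoImplicit false
set_option linter.unusedSectionVars false

namespace Pool.Agent.R841.IDeg

open MvPolynomial Finset

universe u

variable {K : Type u} [Field K] {ι : Type} [Fintype ι] [DecidableEq ι]

theorem hom_sum {G : MvPolynomial ι K} {d : ℕ} (hG : G.IsHomogeneous d) {e : ι →₀ ℕ}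
    (he : e ∈ G.support) : ∑ i, e i = d := by
  have h := hG (mem_support_iff.1 he)
  rw [← h]
  rw [Finsupp.weight_apply, Finsupp.sum_fintype _ _ (by simp)]
  simp

theorem hom_of {G : MvPolynomial ι K} {d : ℕ} (h : ∀ e ∈ G.support, ∑ i, e i = d) :
    G.IsHomogeneous d := by
  intro e he
  rw [Finsupp.weight_apply, Finsupp.sum_fintype _ _ (by simp)]
  simpa using h e (mem_support_iff.2 he)

/-- Degree bound to multiplicity bound. -/
theorem dvd_of_deg {A : Type u} [CommRing A] [Algebra K A] (G : MvPolynomial ι K) (d k : ℕ)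
    (hG : G.IsHomogeneous d) (i : ι) (hk : G.degreeOf i ≤ k) (t : A) (y : ι → A)
    (hy : ∀ j, j ≠ i → t ∣ y j) :
    t ^ (d - k) ∣ aeval y G := by
  rw [aeval_def, eval₂_eq']
  apply Finset.dvd_sum
  intro e he
  apply Dvd.dvd.mul_left
  have h1 : e i ≤ k := (degreeOf_le_iff.mp hk) e he
  have h2 : ∑ j, e j = d := hom_sum hG he
  rw [← Finset.mul_prod_erase Finset.univ _ (Finset.mem_univ i)]
  apply Dvd.dvd.mul_left
  have h3 : t ^ (∑ j ∈ univ.erase i, e j) ∣ ∏ j ∈ univ.erase i, y j ^ e j := by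
    rw [← Finset.prod_pow_eq_pow_sum]
    apply Finset.prod_dvd_prod_of_dvd
    intro j hj
    exact pow_dvd_pow_of_dvd (hy j (Finset.ne_of_mem_erase hj)) _
  refine (pow_dvd_pow t ?_).trans h3
  have h4 := Finset.add_sum_erase Finset.univ (fun j => e j) (Finset.mem_univ i)
  omega

/-- Multiplicity bound to degree bound. -/
theorem deg_of_dvd (G : MvPolynomial ι K) (d m : ℕ) (hG : G.IsHomogeneous d) (i : ι) (c : K)
    (hc : c ≠ 0)
    (h : (X i : MvPolynomial ι K) ^ m ∣
      aeval (fun j => if j = i then (C c : MvPolynomial ι K) else X i * X j) G) :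
    ∀ e ∈ G.support, e i + m ≤ d := by
  classical
  intro e he
  -- the image of a monomial
  have hmono : ∀ f ∈ G.support,
      (algebraMap K (MvPolynomial ι K) (G.coeff f) *
        ∏ j, (if j = i then (C c : MvPolynomial ι K) else X i * X j) ^ f j) =
      monomial (Function.update (⇑f) i (d - f i) |> Finsupp.equivFunOnFinite.symm)
        (G.coeff f * c ^ f i) := by
    intro f hf
    have h2 : ∑ j, f j = d := hom_sum hG hf
    have h4 := Finset.add_sum_erase Finset.univ (fun j => f j) (Finset.mem_univ i)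
    rw [← Finset.mul_prod_erase Finset.univ _ (Finset.mem_univ i)]
    have h5 : ∏ j ∈ univ.erase i, (if j = i then (C c : MvPolynomial ι K) else X i * X j) ^ f j =
        X i ^ (d - f i) * ∏ j ∈ univ.erase i, X j ^ f j := by
      have h6 : d - f i = ∑ j ∈ univ.erase i, f j := by omega
      rw [h6, ← Finset.prod_pow_eq_pow_sum, ← Finset.prod_mul_distrib]
      apply Finset.prod_congr rfl
      intro j hj
      rw [if_neg (Finset.ne_of_mem_erase hj), mul_pow]
    rw [h5, if_pos rfl, ← C_pow]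
    rw [monomial_eq, Finsupp.prod_fintype _ _ (by simp)]
    rw [← Finset.mul_prod_erase Finset.univ (fun j => (X j : MvPolynomial ι K) ^
      ((Finsupp.equivFunOnFinite.symm (Function.update (⇑f) i (d - f i))) j))
      (Finset.mem_univ i)]
    have h7 : ∏ j ∈ univ.erase i, (X j : MvPolynomial ι K) ^
      ((Finsupp.equivFunOnFinite.symm (Function.update (⇑f) i (d - f i))) j) =
      ∏ j ∈ univ.erase i, X j ^ f j := by
      apply Finset.prod_congr rfl
      intro j hj
      simp [Finset.ne_of_mem_erase hj]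
    rw [h7]
    simp only [Finsupp.equivFunOnFinite_symm_apply_apply, Function.update_self, C_mul,
      algebraMap_eq]
    ring
  obtain ⟨q, hq⟩ := h
  rw [aeval_def, eval₂_eq', Finset.sum_congr rfl hmono] at hq
  have h8 := congrArg (coeff (Finsupp.equivFunOnFinite.symm
    (Function.update (⇑e) i (d - e i)))) hq
  rw [coeff_sum, Finset.sum_eq_single e] at h8
  · rw [coeff_monomial, if_pos rfl] at h8
    by_contra hlt
    push Not at hlt
    rw [X_pow_eq_monomial, coeff_monomial_mul', if_neg] at h8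
    · exact mul_ne_zero (mem_support_iff.1 he) (pow_ne_zero _ hc) h8
    · intro hle
      have h9 := hle i
      simp only [Finsupp.single_eq_same, Finsupp.equivFunOnFinite_symm_apply_apply,
        Function.update_self] at h9
      have h10 : e i ≤ d := by
        rw [← hom_sum hG he]
        exact Finset.single_le_sum (f := fun j => e j) (fun _ _ => Nat.zero_le _)
          (Finset.mem_univ i)
      omega
  · intro f hf hfe
    rw [coeff_monomial, if_neg]
    intro heq
    apply hfe
    have h11 : Function.update (⇑f) i (d - f i) = Function.update (⇑e) i (d - e i) :=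
      Finsupp.equivFunOnFinite.symm.injective heq
    ext j
    by_cases hj : j = i
    · subst hj
      have h12 := congrFun h11 j
      simp only [Function.update_self] at h12
      have h13 : f j ≤ d := by
        rw [← hom_sum hG hf]
        exact Finset.single_le_sum (f := fun j => f j) (fun _ _ => Nat.zero_le _)
          (Finset.mem_univ j)
      have h14 : e j ≤ d := by
        rw [← hom_sum hG he]
        exact Finset.single_le_sum (f := fun j => e j) (fun _ _ => Nat.zero_le _)
          (Finset.mem_univ j)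
      omega
    · have h12 := congrFun h11 j
      simpa [Function.update_of_ne hj] using h12
  · intro h; exact absurd he h


/-- the indices different from `a` and `b` -/
def TT (a b : ι) : Finset ι := univ.filter (fun i => i ≠ a ∧ i ≠ b)

theorem mem_TT {a b i : ι} : i ∈ TT a b ↔ i ≠ a ∧ i ≠ b := by simp [TT]

theorem prod_TT {A : Type u} [CommRing A] (a b : ι) (f : ι → A) (ha : f a = 1) (hb : f b = 1) :
    ∏ j, f j = ∏ j ∈ TT a b, f j := by
  rw [TT, Finset.prod_filter_of_ne]
  intro i _ hi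
  constructor
  · rintro rfl; exact hi ha
  · rintro rfl; exact hi hb

theorem sum_TT {A : Type*} [AddCommMonoid A] (a b : ι) (f : ι → A) (ha : f a = 0) (hb : f b = 0) :
    ∑ j, f j = ∑ j ∈ TT a b, f j := by
  rw [TT, Finset.sum_filter_of_ne]
  intro i _ hi
  constructor
  · rintro rfl; exact hi ha
  · rintro rfl; exact hi hb

/-- transformed exponents -/
noncomputable def ex (D : ι → ℕ) (a b : ι) (e : ι →₀ ℕ) : ι →₀ ℕ :=
  Finsupp.equivFunOnFinite.symm (fun i => if i ∈ TT a b then D i - e i else 0)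

theorem ex_apply (D : ι → ℕ) (a b : ι) (e : ι →₀ ℕ) (i : ι) :
    ex D a b e i = if i ∈ TT a b then D i - e i else 0 := rfl

/-- the Cremona transform of `G` -/
noncomputable def crem (G : MvPolynomial ι K) (D : ι → ℕ) (r : ι → K) (a b : ι) :
    MvPolynomial ι K :=
  ∑ e ∈ G.support.filter (fun e => e a = 0 ∧ e b = 0),
    monomial (ex D a b e) (G.coeff e * ∏ i ∈ TT a b, r i ^ e i)

theorem ex_inj {G : MvPolynomial ι K} {D : ι → ℕ} (hD : ∀ i, G.degreeOf i ≤ D i) (a b : ι)
    {e f : ι →₀ ℕ} (he : e ∈ G.support.filter (fun e => e a = 0 ∧ e b = 0))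
    (hf : f ∈ G.support.filter (fun e => e a = 0 ∧ e b = 0)) (h : ex D a b e = ex D a b f) :
    e = f := by
  rw [mem_filter] at he hf
  ext i
  by_cases hi : i ∈ TT a b
  · have h1 := DFunLike.congr_fun h i
    rw [ex_apply, ex_apply, if_pos hi, if_pos hi] at h1
    have h2 := (degreeOf_le_iff.mp (hD i)) e he.1
    have h3 := (degreeOf_le_iff.mp (hD i)) f hf.1
    omega
  · rw [mem_TT] at hi
    by_cases hia : i = a
    · rw [hia, he.2.1, hf.2.1]
    · have hib : i = b := by by_contra hib; exact hi ⟨hia, hib⟩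
      rw [hib, he.2.2, hf.2.2]

theorem coeff_crem {G : MvPolynomial ι K} {D : ι → ℕ} (hD : ∀ i, G.degreeOf i ≤ D i)
    (r : ι → K) (a b : ι) {e : ι →₀ ℕ} (he : e ∈ G.support.filter (fun e => e a = 0 ∧ e b = 0)) :
    (crem G D r a b).coeff (ex D a b e) = G.coeff e * ∏ i ∈ TT a b, r i ^ e i := by
  classical
  rw [crem, coeff_sum, Finset.sum_eq_single e]
  · rw [coeff_monomial, if_pos rfl]
  · intro f hf hfe
    rw [coeff_monomial, if_neg]
    intro h
    exact hfe (ex_inj hD a b hf he h)
  · intro h; exact absurd he h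

theorem supp_crem {G : MvPolynomial ι K} {D : ι → ℕ} {r : ι → K} {a b : ι} {m : ι →₀ ℕ}
    (hm : m ∈ (crem G D r a b).support) :
    ∃ e ∈ G.support, e a = 0 ∧ e b = 0 ∧ m = ex D a b e := by
  classical
  rw [mem_support_iff, crem, coeff_sum] at hm
  obtain ⟨e, he, h⟩ := Finset.exists_ne_zero_of_sum_ne_zero hm
  rw [mem_filter] at he
  rw [coeff_monomial] at h
  refine ⟨e, he.1, he.2.1, he.2.2, ?_⟩
  by_contra hne
  rw [if_neg (fun h' => hne h'.symm)] at h
  exact h rfl

theorem crem_hom {G : MvPolynomial ι K} {d : ℕ} (hG : G.IsHomogeneous d) {D : ι → ℕ}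
    (hD : ∀ i, G.degreeOf i ≤ D i) (r : ι → K) (a b : ι) :
    (crem G D r a b).IsHomogeneous (∑ i ∈ TT a b, D i - d) := by
  apply hom_of
  intro m hm
  obtain ⟨e, he, ha, hb, rfl⟩ := supp_crem hm
  have h1 := hom_sum hG he
  rw [sum_TT a b _ ha hb] at h1
  have h2 : ∑ i, ex D a b e i = ∑ i ∈ TT a b, (D i - e i) := by
    rw [sum_TT a b]
    · apply Finset.sum_congr rfl
      intro i hi
      rw [ex_apply, if_pos hi]
    · rw [ex_apply, if_neg]; simp [mem_TT]
    · rw [ex_apply, if_neg]; simp [mem_TT]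
  rw [h2, ← h1, Finset.sum_tsub_distrib]
  intro i hi
  exact (degreeOf_le_iff.mp (hD i)) e he

theorem crem_deg {G : MvPolynomial ι K} {D : ι → ℕ} (r : ι → K) (a b : ι) (i : ι) :
    (crem G D r a b).degreeOf i ≤ D i := by
  rw [degreeOf_le_iff]
  intro m hm
  obtain ⟨e, he, ha, hb, rfl⟩ := supp_crem hm
  rw [ex_apply]
  split_ifs <;> omega

/-- The basic identity. -/
theorem crem_eq {A : Type u} [CommRing A] [Algebra K A] {G : MvPolynomial ι K} {d : ℕ}
    (hG : G.IsHomogeneous d) {D : ι → ℕ} (hD : ∀ i, G.degreeOf i ≤ D i) (r : ι → K) {a b : ι}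
    (x y : ι → A) (c : A) (hxy : ∀ i ∈ TT a b, x i * y i = c * algebraMap K A (r i))
    (ha : y a = 0) (hb : y b = 0) :
    (∏ i ∈ TT a b, x i ^ D i) * aeval y G = c ^ d * aeval x (crem G D r a b) := by
  classical
  rw [aeval_def, eval₂_eq', crem, map_sum, Finset.mul_sum, Finset.mul_sum]
  rw [← Finset.sum_filter_of_ne (s := G.support) (p := fun e => e a = 0 ∧ e b = 0)]
  · apply Finset.sum_congr rfl
    intro e he
    rw [mem_filter] at he
    obtain ⟨he, hea, heb⟩ := he
    have h1 := hom_sum hG he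
    rw [sum_TT a b _ hea heb] at h1
    rw [aeval_monomial, Finsupp.prod_fintype _ _ (by simp)]
    rw [prod_TT a b (fun i => y i ^ e i) (by simp [hea]) (by simp [heb])]
    rw [prod_TT a b (fun i => x i ^ (ex D a b e i)) (by rw [ex_apply, if_neg (by simp [mem_TT])]; simp)
      (by rw [ex_apply, if_neg (by simp [mem_TT])]; simp)]
    rw [map_mul, map_prod, ← h1, ← Finset.prod_pow_eq_pow_sum]
    have h3 : ∀ i ∈ TT a b, x i ^ D i * y i ^ e i =
        c ^ e i * (x i ^ (ex D a b e i) * algebraMap K A (r i ^ e i)) := by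
      intro i hi
      have h2 := (degreeOf_le_iff.mp (hD i)) e he
      rw [ex_apply, if_pos hi]
      obtain ⟨k, hk⟩ := Nat.exists_eq_add_of_le h2
      have h5 : D i - e i = k := by omega
      rw [h5, hk, map_pow]
      calc x i ^ (e i + k) * y i ^ e i = x i ^ k * (x i * y i) ^ e i := by ring
        _ = x i ^ k * (c * algebraMap K A (r i)) ^ e i := by rw [hxy i hi]
        _ = _ := by ring
    have h4 : (∏ i ∈ TT a b, x i ^ D i) * ∏ i ∈ TT a b, y i ^ e i =
        (∏ i ∈ TT a b, c ^ e i) * ((∏ i ∈ TT a b, x i ^ (ex D a b e i)) *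
          ∏ i ∈ TT a b, algebraMap K A (r i ^ e i)) := by
      rw [← Finset.prod_mul_distrib, ← Finset.prod_mul_distrib, ← Finset.prod_mul_distrib]
      exact Finset.prod_congr rfl h3
    calc (∏ i ∈ TT a b, x i ^ D i) * (algebraMap K A (coeff e G) * ∏ i ∈ TT a b, y i ^ e i)
        = algebraMap K A (coeff e G) * ((∏ i ∈ TT a b, x i ^ D i) * ∏ i ∈ TT a b, y i ^ e i) := by
          ring
      _ = _ := by rw [h4]; ring
  · intro e he hne
    constructor
    · by_contra h
      apply hne
      have h0 : ∏ i, y i ^ e i = 0 := Finset.prod_eq_zero (Finset.mem_univ a)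
        (by rw [ha, zero_pow h])
      rw [h0]; ring
    · by_contra h
      apply hne
      have h0 : ∏ i, y i ^ e i = 0 := Finset.prod_eq_zero (Finset.mem_univ b)
        (by rw [hb, zero_pow h])
      rw [h0]; ring


/-- translation of `y` by an affine function of `s` so that the coordinates `a`, `b` vanish -/
noncomputable def sh {A : Type u} [CommRing A] [Algebra K A] (s : ι → K) (a b : ι) (y : ι → A) :
    ι → A := fun i =>
  y i + algebraMap K A ((s a - s b)⁻¹) * (y a * algebraMap K A (s b) - y b * algebraMap K A (s a))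
    + (algebraMap K A ((s a - s b)⁻¹) * (y b - y a)) * algebraMap K A (s i)

section sh

variable {A : Type u} [CommRing A] [Algebra K A] {s : ι → K} {a b : ι}

theorem sh_inv (hab : s a ≠ s b) : algebraMap K A ((s a - s b)⁻¹) *
    (algebraMap K A (s a) - algebraMap K A (s b)) = 1 := by
  rw [← map_sub, ← map_mul, inv_mul_cancel₀ (sub_ne_zero.2 hab), map_one]

theorem sh_a (hab : s a ≠ s b) (y : ι → A) : sh s a b y a = 0 := by
  have h := sh_inv (A := A) hab
  rw [sh]
  linear_combination (-(y a)) * h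

theorem sh_b (hab : s a ≠ s b) (y : ι → A) : sh s a b y b = 0 := by
  have h := sh_inv (A := A) hab
  rw [sh]
  linear_combination (-(y b)) * h

theorem sh_trans (hab : s a ≠ s b) (y : ι → A) (u v : A) :
    sh s a b (fun i => y i + u + v * algebraMap K A (s i)) = sh s a b y := by
  have h := sh_inv (A := A) hab
  funext i
  rw [sh, sh]
  linear_combination (-(u + v * algebraMap K A (s i))) * h

theorem sh_of_zero (y : ι → A) (ha : y a = 0) (hb : y b = 0) : sh s a b y = y := by
  funext i
  rw [sh, ha, hb]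
  ring

theorem sh_comm (y : ι → A) : sh s a b y = sh s b a y := by
  funext i
  rw [sh, sh]
  have h1 : (s b - s a)⁻¹ = -(s a - s b)⁻¹ := by rw [← neg_sub, inv_neg]
  rw [h1, map_neg]
  ring

theorem sh_map {B : Type u} [CommRing B] [Algebra K B] (φ : A →ₐ[K] B) (y : ι → A) (i : ι) :
    φ (sh s a b y i) = sh s a b (fun j => φ (y j)) i := by
  simp [sh]

end sh

theorem TT_comm (a b : ι) : TT a b = TT b a := by
  ext i; simp [mem_TT, and_comm]

/-- the parameters of the Cremona transformation -/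
def rr (s : ι → K) (a b : ι) : ι → K := fun i => (s i - s a) * (s i - s b)

theorem crem_comm (G : MvPolynomial ι K) (D : ι → ℕ) (s : ι → K) (a b : ι) :
    crem G D (rr s a b) a b = crem G D (rr s b a) b a := by
  unfold crem ex
  rw [TT_comm a b]
  have h1 : (G.support.filter (fun e => e a = 0 ∧ e b = 0)) =
      G.support.filter (fun e => e b = 0 ∧ e a = 0) := by
    ext e; simp [and_comm]
  rw [h1]
  have h2 : rr s a b = rr s b a := by funext i; simp [rr, mul_comm]
  rw [h2]

/-- the new form -/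
noncomputable def newG (s : ι → K) (G : MvPolynomial ι K) (D : ι → ℕ) (a b : ι) :
    MvPolynomial ι K :=
  aeval (sh s a b (fun i => (X i : MvPolynomial ι K))) (crem G D (rr s a b) a b)

theorem newG_comm (s : ι → K) (G : MvPolynomial ι K) (D : ι → ℕ) (a b : ι) :
    newG s G D a b = newG s G D b a := by
  rw [newG, newG, crem_comm, sh_comm]

theorem aeval_newG {A : Type u} [CommRing A] [Algebra K A] (s : ι → K) (G : MvPolynomial ι K)
    (D : ι → ℕ) (a b : ι) (y : ι → A) :
    aeval y (newG s G D a b) = aeval (sh s a b y) (crem G D (rr s a b) a b) := by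
  rw [newG, comp_aeval_apply]
  congr 2
  funext i
  rw [sh_map]
  simp

/-- A form on `P^n`, written in `n + 3` redundant variables. -/
structure Fm (s : ι → K) (d : ℕ) (δ : ι → ℤ) (G : MvPolynomial ι K) : Prop where
  ne : G ≠ 0
  hom : G.IsHomogeneous d
  deg : ∀ i, (G.degreeOf i : ℤ) ≤ δ i
  inv : ∀ (A : Type u) [CommRing A] [Algebra K A] (y : ι → A) (u v : A),
    aeval (fun i => y i + u + v * algebraMap K A (s i)) G = aeval y G

theorem Fm.aeval_sh {s : ι → K} {d : ℕ} {δ : ι → ℤ} {G : MvPolynomial ι K} (h : Fm s d δ G)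
    {A : Type u} [CommRing A] [Algebra K A] (a b : ι) (y : ι → A) :
    aeval (sh s a b y) G = aeval y G := by
  unfold sh
  exact h.inv A y _ _

theorem Fm.exists_mono {s : ι → K} {d : ℕ} {δ : ι → ℤ} {G : MvPolynomial ι K} (h : Fm s d δ G)
    {a b : ι} (hab : s a ≠ s b) : ∃ e ∈ G.support, e a = 0 ∧ e b = 0 := by
  by_contra hcon
  push Not at hcon
  apply h.ne
  rw [← aeval_X_left_apply G, ← h.aeval_sh a b, aeval_def, eval₂_eq']
  apply Finset.sum_eq_zero
  intro e he
  by_cases hea : e a = 0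
  · have h0 : ∏ i, sh s a b (fun i => (X i : MvPolynomial ι K)) i ^ e i = 0 :=
      Finset.prod_eq_zero (Finset.mem_univ b) (by rw [sh_b hab, zero_pow (hcon e he hea)])
    rw [h0, mul_zero]
  · have h0 : ∏ i, sh s a b (fun i => (X i : MvPolynomial ι K)) i ^ e i = 0 :=
      Finset.prod_eq_zero (Finset.mem_univ a) (by rw [sh_a hab, zero_pow hea])
    rw [h0, mul_zero]

theorem Fm.crem_ne {s : ι → K} (hs : Function.Injective s) {d : ℕ} {δ : ι → ℤ}
    {G : MvPolynomial ι K} (h : Fm s d δ G) {D : ι → ℕ} (hD : ∀ i, G.degreeOf i ≤ D i)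
    {a b : ι} (hab : a ≠ b) : crem G D (rr s a b) a b ≠ 0 := by
  obtain ⟨e, he, hea, heb⟩ := h.exists_mono (hs.ne hab)
  intro h0
  have h1 := coeff_crem hD (rr s a b) a b (Finset.mem_filter.2 ⟨he, hea, heb⟩)
  rw [h0, coeff_zero] at h1
  refine mul_ne_zero (mem_support_iff.1 he) (Finset.prod_ne_zero_iff.2 ?_) h1.symm
  intro i hi
  rw [mem_TT] at hi
  exact pow_ne_zero _ (mul_ne_zero (sub_ne_zero.2 (hs.ne hi.1)) (sub_ne_zero.2 (hs.ne hi.2)))

theorem Fm.newG_ne {s : ι → K} (hs : Function.Injective s) {d : ℕ} {δ : ι → ℤ}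
    {G : MvPolynomial ι K} (h : Fm s d δ G) {D : ι → ℕ} (hD : ∀ i, G.degreeOf i ≤ D i)
    {a b : ι} (hab : a ≠ b) : newG s G D a b ≠ 0 := by
  intro h0
  apply h.crem_ne hs hD hab
  set y : ι → MvPolynomial ι K := fun i => if i ∈ TT a b then X i else 0 with hy
  have h1 : aeval y (newG s G D a b) = 0 := by rw [h0, map_zero]
  rw [aeval_newG, sh_of_zero y (by simp [hy, mem_TT]) (by simp [hy, mem_TT])] at h1
  rw [← h1]
  conv_lhs => rw [← aeval_X_left_apply (crem G D (rr s a b) a b)]
  rw [aeval_def, aeval_def, eval₂_eq', eval₂_eq']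
  apply Finset.sum_congr rfl
  intro m hm
  obtain ⟨e, he, ha, hb, rfl⟩ := supp_crem hm
  congr 1
  apply Finset.prod_congr rfl
  intro i _
  by_cases hi : i ∈ TT a b
  · simp [hy, hi]
  · rw [ex_apply, if_neg hi, pow_zero, pow_zero]

theorem sh_X_hom (s : ι → K) (a b i : ι) :
    (sh s a b (fun i => (X i : MvPolynomial ι K)) i).IsHomogeneous 1 := by
  rw [sh]
  simp only [algebraMap_eq]
  have h1 : (X a * C (s b) : MvPolynomial ι K).IsHomogeneous 1 := by
    rw [mul_comm]; exact isHomogeneous_C_mul_X _ _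
  have h2 : (X b * C (s a) : MvPolynomial ι K).IsHomogeneous 1 := by
    rw [mul_comm]; exact isHomogeneous_C_mul_X _ _
  have h3 : (C ((s a - s b)⁻¹) * (X b - X a) * C (s i) : MvPolynomial ι K).IsHomogeneous 1 := by
    rw [mul_comm]
    exact (((isHomogeneous_X _ _).sub (isHomogeneous_X _ _)).C_mul _).C_mul _
  exact ((isHomogeneous_X _ _).add ((h1.sub h2).C_mul _)).add h3

theorem newG_hom {G : MvPolynomial ι K} {d : ℕ} (hG : G.IsHomogeneous d) {D : ι → ℕ}
    (hD : ∀ i, G.degreeOf i ≤ D i) (s : ι → K) (a b : ι) :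
    (newG s G D a b).IsHomogeneous (∑ i ∈ TT a b, D i - d) := by
  have h := (crem_hom hG hD (rr s a b) a b).aeval (sh s a b (fun i => (X i : MvPolynomial ι K)))
    (sh_X_hom s a b)
  rwa [one_mul] at h

theorem newG_deg_T {G : MvPolynomial ι K} {d : ℕ} (hG : G.IsHomogeneous d) {D : ι → ℕ}
    (hD : ∀ i, G.degreeOf i ≤ D i) (s : ι → K) (a b : ι) {i : ι} (hi : i ∈ TT a b) :
    (newG s G D a b).degreeOf i ≤ D i := by
  classical
  rw [degreeOf_le_iff]
  intro e he
  rw [mem_TT] at hi
  have h1 := deg_of_dvd (newG s G D a b) (∑ i ∈ TT a b, D i - d)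
    ((∑ i ∈ TT a b, D i - d) - D i) (newG_hom hG hD s a b) i 1 one_ne_zero ?_ e he
  · omega
  · rw [aeval_newG]
    apply dvd_of_deg _ _ _ (crem_hom hG hD (rr s a b) a b) i (crem_deg (rr s a b) a b i)
    intro j hj
    rw [sh, if_neg hj, if_neg (Ne.symm hi.1), if_neg (Ne.symm hi.2)]
    refine dvd_add (dvd_add (Dvd.intro _ rfl) (Dvd.dvd.mul_left (dvd_sub ?_ ?_) _)) ?_
    · exact Dvd.dvd.mul_right (Dvd.intro _ rfl) _
    · exact Dvd.dvd.mul_right (Dvd.intro _ rfl) _
    · exact Dvd.dvd.mul_right (Dvd.dvd.mul_left (dvd_sub (Dvd.intro _ rfl) (Dvd.intro _ rfl)) _) _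

theorem dvd_prod_sub {A : Type u} [CommRing A] (t : A) (S : Finset ι) (x q : ι → A)
    (h : ∀ i ∈ S, t ∣ x i - q i) : t ∣ ∏ i ∈ S, x i - ∏ i ∈ S, q i := by
  induction S using Finset.induction_on with
  | empty => simp
  | insert i S hi ih =>
    rw [Finset.prod_insert hi, Finset.prod_insert hi]
    have h1 := ih (fun j hj => h j (Finset.mem_insert_of_mem hj))
    have h2 := h i (Finset.mem_insert_self i S)
    have h3 : x i * ∏ j ∈ S, x j - q i * ∏ j ∈ S, q j =
        (x i - q i) * ∏ j ∈ S, x j + q i * (∏ j ∈ S, x j - ∏ j ∈ S, q j) := by ring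
    rw [h3]
    exact dvd_add (Dvd.dvd.mul_right h2 _) (Dvd.dvd.mul_left h1 _)

theorem Fm.newG_deg_a {s : ι → K} (hs : Function.Injective s) {d : ℕ} {δ : ι → ℤ}
    {G : MvPolynomial ι K} (h : Fm s d δ G) {D : ι → ℕ} (hD : ∀ i, G.degreeOf i ≤ D i)
    {a b : ι} (hab : a ≠ b) :
    ∀ e ∈ (newG s G D a b).support, e a + (d - D b) ≤ ∑ i ∈ TT a b, D i - d := by
  classical
  have hsab : s a ≠ s b := hs.ne hab
  apply deg_of_dvd (newG s G D a b) (∑ i ∈ TT a b, D i - d) (d - D b)
    (newG_hom h.hom hD s a b) a (-(s a - s b)) (neg_ne_zero.2 (sub_ne_zero.2 hsab))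
  rw [aeval_newG]
  set y : ι → MvPolynomial ι K := fun j => if j = a then C (-(s a - s b)) else X a * X j with hy
  set x := sh s a b y with hx
  have hxq : ∀ i ∈ TT a b, (X a : MvPolynomial ι K) ∣ x i - C (s i - s b) := by
    intro i hi
    rw [mem_TT] at hi
    have h0 := sh_inv (A := MvPolynomial ι K) hsab
    have h1 : x i - C (s i - s b) = X a * (X i - C ((s a - s b)⁻¹) * X b * C (s a)
        + C ((s a - s b)⁻¹) * X b * C (s i)) := by
      rw [hx, sh]
      simp only [hy, if_neg hi.1, if_true, if_neg (Ne.symm hab), algebraMap_eq]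
      rw [algebraMap_eq] at h0
      simp only [C_neg, C_sub]
      linear_combination (C (s i) - C (s b)) * h0
    rw [h1]
    exact Dvd.intro _ rfl
  set c0 : K := ∏ i ∈ TT a b, (s i - s b) with hc0
  have hc0ne : c0 ≠ 0 := by
    rw [hc0, Finset.prod_ne_zero_iff]
    intro i hi
    rw [mem_TT] at hi
    exact sub_ne_zero.2 (hs.ne hi.2)
  set c : MvPolynomial ι K := ∏ i ∈ TT a b, x i with hc
  set z : ι → MvPolynomial ι K := fun i =>
    if i ∈ TT a b then C (rr s a b i) * ∏ j ∈ (TT a b).erase i, x j else 0 with hz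
  have hcc0 : (X a : MvPolynomial ι K) ∣ c - C c0 := by
    rw [hc, hc0, map_prod]
    exact dvd_prod_sub _ _ _ _ hxq
  have hcop : IsCoprime (X a : MvPolynomial ι K) c := by
    obtain ⟨w, hw⟩ := hcc0
    refine ⟨-(C c0⁻¹ * w), C c0⁻¹, ?_⟩
    have h1 : (C c0⁻¹ : MvPolynomial ι K) * C c0 = 1 := by
      rw [← C_mul, inv_mul_cancel₀ hc0ne, C_1]
    have h2 : c = C c0 + X a * w := by rw [← hw]; ring
    rw [h2]
    linear_combination h1
  have hid := crem_eq h.hom hD (rr s a b) (a := a) (b := b) x z c ?_ (by simp [hz, mem_TT])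
    (by simp [hz, mem_TT])
  · have h2 : (X a : MvPolynomial ι K) ^ (d - D b) ∣ aeval z G := by
      rw [← h.inv (MvPolynomial ι K) z (C (c0 * s a)) (C (-c0))]
      apply dvd_of_deg G d (D b) h.hom b (hD b)
      intro j hj
      rw [algebraMap_eq]
      by_cases hja : j = a
      · subst hja
        have h3 : z j + C (c0 * s j) + C (-c0) * C (s j) = 0 := by
          have h4 : z j = 0 := by simp [hz, mem_TT]
          rw [h4, ← C_mul]
          simp
        rw [h3]
        exact dvd_zero _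
      · have hjT : j ∈ TT a b := mem_TT.2 ⟨hja, hj⟩
        have h3 : z j = C (rr s a b j) * ∏ l ∈ (TT a b).erase j, x l := by
          simp [hz, hjT]
        have h4 := dvd_prod_sub (X a : MvPolynomial ι K) ((TT a b).erase j) x
          (fun i => C (s i - s b)) (fun i hi => hxq i (Finset.mem_of_mem_erase hi))
        have h5 : c0 = (s j - s b) * ∏ l ∈ (TT a b).erase j, (s l - s b) := by
          rw [hc0, Finset.mul_prod_erase _ (fun l => s l - s b) hjT]
        have h6 : z j + C (c0 * s a) + C (-c0) * C (s j) =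
            C (rr s a b j) * (∏ l ∈ (TT a b).erase j, x l -
              ∏ l ∈ (TT a b).erase j, C (s l - s b)) := by
          rw [h3, h5, ← map_prod, rr]
          simp only [C_mul, C_sub, C_neg]
          ring
        rw [h6]
        exact Dvd.dvd.mul_left h4 _
    have h7 : (X a : MvPolynomial ι K) ^ (d - D b) ∣ c ^ d * aeval x (crem G D (rr s a b) a b) := by
      rw [← hid]
      exact Dvd.dvd.mul_left h2 _
    exact (hcop.pow (m := d - D b) (n := d)).dvd_of_dvd_mul_left h7
  · intro i hi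
    have h3 : z i = C (rr s a b i) * ∏ l ∈ (TT a b).erase i, x l := by
      simp [hz, hi]
    rw [h3, algebraMap_eq, hc, ← Finset.mul_prod_erase _ x hi]
    ring

/-- **The Cremona step.** -/
theorem Fm.step {s : ι → K} (hs : Function.Injective s) {d : ℕ} {δ : ι → ℤ}
    {G : MvPolynomial ι K} (h : Fm s d δ G) {a b : ι} (hab : a ≠ b) :
    ∃ (E : ℕ) (G' : MvPolynomial ι K), (E : ℤ) = ∑ i ∈ TT a b, δ i - d ∧
      Fm s E (fun i => if i = a ∨ i = b then ∑ j, δ j - 2 * d - δ i else δ i) G' := by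
  classical
  set D : ι → ℕ := fun i => (δ i).toNat with hDdef
  have hδ0 : ∀ i, 0 ≤ δ i := fun i => le_trans (Int.natCast_nonneg _) (h.deg i)
  have hDδ : ∀ i, (D i : ℤ) = δ i := fun i => Int.toNat_of_nonneg (hδ0 i)
  have hD : ∀ i, G.degreeOf i ≤ D i := by
    intro i
    have := h.deg i
    rw [← hDδ i] at this
    exact_mod_cast this
  have hsum : ((∑ i ∈ TT a b, D i : ℕ) : ℤ) = ∑ i ∈ TT a b, δ i := by
    rw [Nat.cast_sum]
    exact Finset.sum_congr rfl (fun i _ => hDδ i)
  obtain ⟨e, he, hea, heb⟩ := h.exists_mono (hs.ne hab)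
  have hd : d ≤ ∑ i ∈ TT a b, D i := by
    rw [← hom_sum h.hom he, sum_TT a b _ hea heb]
    exact Finset.sum_le_sum (fun i _ => (degreeOf_le_iff.mp (hD i)) e he)
  have htot : ∑ j, δ j = δ a + δ b + ∑ i ∈ TT a b, δ i := by
    rw [← Finset.add_sum_erase _ _ (Finset.mem_univ a),
      ← Finset.add_sum_erase (univ.erase a) _ (Finset.mem_erase.2 ⟨Ne.symm hab, Finset.mem_univ b⟩),
      ← add_assoc]
    congr 1
    apply Finset.sum_congr _ (fun _ _ => rfl)
    ext i
    simp [mem_TT, and_comm]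
  refine ⟨∑ i ∈ TT a b, D i - d, newG s G D a b, ?_, ?_, ?_, ?_, ?_⟩
  · rw [Nat.cast_sub hd, hsum]
  · exact h.newG_ne hs hD hab
  · exact newG_hom h.hom hD s a b
  · intro i
    by_cases hi : i = a ∨ i = b
    · rw [if_pos hi]
      rcases hi with rfl | rfl
      · have h1 : (newG s G D i b).degreeOf i ≤ ∑ j ∈ TT i b, D j - d - (d - D b) := by
          rw [degreeOf_le_iff]
          intro e he
          have := h.newG_deg_a hs hD hab e he
          omega
        have h2 := h.newG_deg_a hs hD hab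
        obtain ⟨e1, he1⟩ := support_nonempty.2 (h.newG_ne hs hD hab)
        have h3 := h2 e1 he1
        have h4 := hDδ b
        have h5 := hDδ i
        rw [htot, ← hsum]
        omega
      · have h1 : (newG s G D i a).degreeOf i ≤ ∑ j ∈ TT i a, D j - d - (d - D a) := by
          rw [degreeOf_le_iff]
          intro e he
          have := h.newG_deg_a hs hD (Ne.symm hab) e he
          omega
        rw [newG_comm]
        have h2 := h.newG_deg_a hs hD (Ne.symm hab)
        obtain ⟨e1, he1⟩ := support_nonempty.2 (h.newG_ne hs hD (Ne.symm hab))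
        have h3 := h2 e1 he1
        have h4 := hDδ a
        have h5 := hDδ i
        rw [TT_comm i a] at h1 h3
        rw [htot, ← hsum]
        omega
    · rw [if_neg hi]
      push Not at hi
      rw [← hDδ i]
      exact_mod_cast newG_deg_T h.hom hD s a b (mem_TT.2 hi)
  · intro A _ _ y u v
    rw [aeval_newG, aeval_newG, sh_trans (hs.ne hab)]


theorem Fm.step' {s : ι → K} (hs : Function.Injective s) {d : ℕ} {δ : ι → ℤ}
    {G : MvPolynomial ι K} (h : Fm s d δ G) {a b : ι} (hab : a ≠ b) :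
    ∃ (E : ℕ) (G' : MvPolynomial ι K),
      Fm s E (fun i => if i = a ∨ i = b then ∑ j, δ j - 2 * d - δ i else δ i) G' ∧
      ∑ i, (if i = a ∨ i = b then ∑ j, δ j - 2 * d - δ i else δ i) - 2 * (E : ℤ) =
        ∑ j, δ j - 2 * d := by
  classical
  obtain ⟨E, G', hE, hG'⟩ := h.step hs hab
  refine ⟨E, G', hG', ?_⟩
  have key : ∀ f : ι → ℤ, ∑ j, f j = f a + f b + ∑ i ∈ TT a b, f i := by
    intro f
    rw [← Finset.add_sum_erase _ _ (Finset.mem_univ a),
      ← Finset.add_sum_erase (univ.erase a) _ (Finset.mem_erase.2 ⟨Ne.symm hab, Finset.mem_univ b⟩),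
      ← add_assoc]
    congr 1
    apply Finset.sum_congr _ (fun _ _ => rfl)
    ext i
    simp [mem_TT, and_comm]
  have h1 := key δ
  have h2 := key (fun i => if i = a ∨ i = b then ∑ j, δ j - 2 * d - δ i else δ i)
  have h3 : ∑ i ∈ TT a b, (if i = a ∨ i = b then ∑ j, δ j - 2 * (d : ℤ) - δ i else δ i) =
      ∑ i ∈ TT a b, δ i := by
    apply Finset.sum_congr rfl
    intro i hi
    rw [mem_TT] at hi
    rw [if_neg]
    push Not
    exact hi
  rw [h2, h3, hE]
  simp only [true_or, or_true, if_true]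
  linarith

theorem lower_iter {h : ℕ} {s : Fin h × Bool → K} (hs : Function.Injective s) {d : ℕ} {δ : ℤ}
    {G : MvPolynomial (Fin h × Bool) K} (hG : Fm s d (fun _ => δ) G) (j : ℕ) (hj : j ≤ h) :
    ∃ (E : ℕ) (G' : MvPolynomial (Fin h × Bool) K),
      Fm s E (fun i => if i.1.val < j then (2 * h * δ - 2 * d) - δ else δ) G' ∧
      ∑ i : Fin h × Bool, (if i.1.val < j then (2 * h * δ - 2 * (d : ℤ)) - δ else δ)
        - 2 * (E : ℤ) = 2 * h * δ - 2 * d := by
  induction j with
  | zero =>
    refine ⟨d, G, ?_, ?_⟩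
    · simpa using hG
    · have h0 : ∑ i : Fin h × Bool, (if i.1.val < 0 then (2 * h * δ - 2 * (d : ℤ)) - δ else δ) =
          2 * h * δ := by
        simp only [Nat.not_lt_zero, if_false, Finset.sum_const, Finset.card_univ,
          Fintype.card_prod, Fintype.card_fin, Fintype.card_bool, nsmul_eq_mul]
        push_cast
        ring
      rw [h0]
  | succ j ih =>
    obtain ⟨E, G', h1, h2⟩ := ih (by omega)
    have hab : ((⟨j, by omega⟩, false) : Fin h × Bool) ≠ (⟨j, by omega⟩, true) := by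
      simp
    obtain ⟨E', G'', h3, h4⟩ := h1.step' hs hab
    have h5 : (fun i : Fin h × Bool => if i = (⟨j, by omega⟩, false) ∨ i = (⟨j, by omega⟩, true) then
        ∑ l : Fin h × Bool, (if l.1.val < j then (2 * h * δ - 2 * (d : ℤ)) - δ else δ) - 2 * E -
          (if i.1.val < j then (2 * h * δ - 2 * (d : ℤ)) - δ else δ)
        else (if i.1.val < j then (2 * h * δ - 2 * (d : ℤ)) - δ else δ)) =
        (fun i : Fin h × Bool => if i.1.val < j + 1 then (2 * h * δ - 2 * (d : ℤ)) - δ else δ) := by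
      funext i
      obtain ⟨⟨i1, hi1⟩, i2⟩ := i
      by_cases hc : i1 = j
      · subst hc
        have h6 : ((⟨⟨i1, hi1⟩, i2⟩ : Fin h × Bool) = (⟨i1, by omega⟩, false) ∨
            (⟨⟨i1, hi1⟩, i2⟩ : Fin h × Bool) = (⟨i1, by omega⟩, true)) := by
          cases i2 <;> simp
        rw [if_pos h6, h2]
        simp
      · have h6 : ¬ ((⟨⟨i1, hi1⟩, i2⟩ : Fin h × Bool) = (⟨j, by omega⟩, false) ∨
            (⟨⟨i1, hi1⟩, i2⟩ : Fin h × Bool) = (⟨j, by omega⟩, true)) := by
          simp [hc]
        rw [if_neg h6]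
        by_cases hlt : i1 < j
        · simp [hlt, Nat.lt_succ_of_lt hlt]
        · have : ¬ i1 < j + 1 := by omega
          simp [hlt, this]
    refine ⟨E', G'', ?_, ?_⟩
    · rw [← h5]; exact h3
    · have h8 := Finset.sum_congr (rfl : (Finset.univ : Finset (Fin h × Bool)) = Finset.univ)
        (fun i _ => congrFun h5 i)
      rw [h8, h2] at h4
      exact h4

/-- **The lower bound.** -/
theorem lower_core {h : ℕ} {s : Fin h × Bool → K} (hs : Function.Injective s) {d : ℕ} {k : ℤ}
    {G : MvPolynomial (Fin h × Bool) K} (hG : Fm s d (fun _ => d - k) G) :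
    2 * (h : ℤ) * (h - 1) * k ≤ (2 * (h : ℤ) ^ 2 - 4 * h + 1) * d := by
  obtain ⟨E, G', h1, h2⟩ := lower_iter hs hG h le_rfl
  have h3 : ∑ i : Fin h × Bool, (if i.1.val < h then (2 * h * ((d : ℤ) - k) - 2 * (d : ℤ)) -
      ((d : ℤ) - k) else ((d : ℤ) - k)) = 2 * h * ((2 * h * ((d : ℤ) - k) - 2 * (d : ℤ)) -
      ((d : ℤ) - k)) := by
    simp
    ring
  rw [h3] at h2
  have h4 : (0 : ℤ) ≤ E := Int.natCast_nonneg E
  nlinarith

end Pool.Agent.R841.IDeg
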