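import Pool.Agent.R841.IDeg.Cremona

/-!
# `n + 3` points of `P^n` in linearly general position: normal form and the lower bound
-/

set_option autoImplicit false
set_option linter.unusedSectionVars false

namespace Pool.Agent.R841.IDeg

open MvPolynomial Finset

universe u

variable {K : Type u} [Field K]

/-- The homogeneous ideal of the point with homogeneous coordinates `v`. -/
noncomputable def pIdeal {n : ℕ} (v : Fin (n + 1) → K) : Ideal (MvPolynomial (Fin (n + 1)) K) :=
  Ideal.span {f | (∃ d, f.IsHomogeneous d) ∧ eval v f = 0}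

theorem eval_smul_hom {n : ℕ} {f : MvPolynomial (Fin (n + 1)) K} {d : ℕ} (hf : f.IsHomogeneous d)
    {A : Type u} [CommRing A] [Algebra K A] (c : A) (y : Fin (n + 1) → A) :
    aeval (fun a => c * y a) f = c ^ d * aeval y f := by
  rw [aeval_def, aeval_def, eval₂_eq', eval₂_eq', Finset.mul_sum]
  apply Finset.sum_congr rfl
  intro e he
  have h1 : ∑ i, e i = d := hom_sum hf he
  have h2 : ∏ i, (c * y i) ^ e i = c ^ d * ∏ i, y i ^ e i := by
    rw [← h1, ← Finset.prod_pow_eq_pow_sum, ← Finset.prod_mul_distrib]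
    exact Finset.prod_congr rfl (fun i _ => mul_pow _ _ _)
  rw [h2]
  ring

theorem pIdeal_smul {n : ℕ} (v : Fin (n + 1) → K) (c : K) (hc : c ≠ 0) :
    pIdeal (c • v) = pIdeal v := by
  unfold pIdeal
  congr 1
  ext f
  simp only [Set.mem_ofPred_eq]
  constructor
  · rintro ⟨⟨d, hd⟩, h⟩
    refine ⟨⟨d, hd⟩, ?_⟩
    have h1 := eval_smul_hom hd c v
    rw [← coe_aeval_eq_eval] at h ⊢
    have h2 : aeval (c • v) f = 0 := h
    have h3 : (c • v) = fun a => c * v a := rfl
    rw [h3, h1] at h2
    exact (mul_eq_zero.1 h2).resolve_left (pow_ne_zero _ hc)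
  · rintro ⟨⟨d, hd⟩, h⟩
    refine ⟨⟨d, hd⟩, ?_⟩
    have h1 := eval_smul_hom hd c v
    rw [← coe_aeval_eq_eval] at h ⊢
    have h2 : aeval v f = 0 := h
    have h3 : (c • v) = fun a => c * v a := rfl
    change aeval (c • v) f = 0
    rw [h3, h1, h2, mul_zero]

/-- aeval is compatible with congruences -/
theorem dvd_aeval_sub {σ : Type} {A : Type u} [CommRing A] [Algebra K A] (t : A)
    (x y : σ → A) (h : ∀ a, t ∣ x a - y a) (f : MvPolynomial σ K) :
    t ∣ aeval x f - aeval y f := by
  induction f using MvPolynomial.induction_on with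
  | C c => simp
  | add p q hp hq =>
    have h1 : aeval x (p + q) - aeval y (p + q) = (aeval x p - aeval y p) +
        (aeval x q - aeval y q) := by simp; ring
    rw [h1]; exact dvd_add hp hq
  | mul_X p a hp =>
    have h1 : aeval x (p * X a) - aeval y (p * X a) = (aeval x p - aeval y p) * x a +
        aeval y p * (x a - y a) := by simp; ring
    rw [h1]
    exact dvd_add (Dvd.dvd.mul_right hp _) (Dvd.dvd.mul_left (h a) _)

theorem dvd_of_mem_pow {n : ℕ} {v : Fin (n + 1) → K} {k : ℕ} {F : MvPolynomial (Fin (n + 1)) K}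
    (hF : F ∈ pIdeal v ^ k) {A : Type u} [CommRing A] [Algebra K A] (t : A)
    (x : Fin (n + 1) → A) (hx : ∀ a, t ∣ x a - algebraMap K A (v a)) :
    t ^ k ∣ aeval x F := by
  have h1 : pIdeal v ≤ Ideal.comap (aeval x : MvPolynomial (Fin (n + 1)) K →ₐ[K] A)
      (Ideal.span {t}) := by
    unfold pIdeal
    rw [Ideal.span_le]
    rintro f ⟨-, hf⟩
    rw [SetLike.mem_coe, Ideal.mem_comap, Ideal.mem_span_singleton]
    have h2 := dvd_aeval_sub t x (fun a => algebraMap K A (v a)) hx f
    have h3 : aeval (fun a => algebraMap K A (v a)) f = 0 := by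
      have h4 : aeval (algebraMap K A ∘ v) f = algebraMap K A (aeval v f) :=
        aeval_algebraMap_apply _ _ _
      have h5 : aeval v f = eval v f := by rw [← coe_aeval_eq_eval]; rfl
      rw [h5, hf, map_zero] at h4
      exact h4
    rw [h3, sub_zero] at h2
    exact h2
  have h2 : pIdeal v ^ k ≤ Ideal.comap (aeval x : MvPolynomial (Fin (n + 1)) K →ₐ[K] A)
      (Ideal.span {t} ^ k) :=
    (Ideal.pow_right_mono h1 k).trans (Ideal.le_comap_pow _ k)
  have h3 := h2 hF
  rw [Ideal.mem_comap, Ideal.span_singleton_pow, Ideal.mem_span_singleton] at h3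
  exact h3

variable {ι : Type} [Fintype ι] [DecidableEq ι]

/-- Normal form of the configurations. -/
structure Cfg {n : ℕ} (s : ι → K) (p : ι → Fin (n + 1) → K) : Prop where
  inj : Function.Injective s
  rel1 : ∑ i, p i = 0
  rel2 : ∑ i, s i • p i = 0
  surj : ∀ v : Fin (n + 1) → K, ∃ c : ι → K, ∑ i, c i • p i = v
  ker : ∀ c : ι → K, ∑ i, c i • p i = 0 → ∃ u v, ∀ i, c i = u + v * s i

/-- `F` as a polynomial in the redundant variables -/
noncomputable def lift {n : ℕ} (p : ι → Fin (n + 1) → K) (F : MvPolynomial (Fin (n + 1)) K) :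
    MvPolynomial ι K :=
  aeval (fun a => ∑ i, (C (p i a) : MvPolynomial ι K) * X i) F

theorem aeval_lift {n : ℕ} (p : ι → Fin (n + 1) → K) (F : MvPolynomial (Fin (n + 1)) K)
    {A : Type u} [CommRing A] [Algebra K A] (y : ι → A) :
    aeval y (lift p F) = aeval (fun a => ∑ i, algebraMap K A (p i a) * y i) F := by
  rw [lift, comp_aeval_apply]
  congr 2
  funext a
  simp

theorem Cfg.lift_ne {n : ℕ} {s : ι → K} {p : ι → Fin (n + 1) → K} (h : Cfg s p)
    {F : MvPolynomial (Fin (n + 1)) K} (hF0 : F ≠ 0) : lift p F ≠ 0 := by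
  classical
  intro h0
  apply hF0
  choose c hc using h.surj
  have h1 : aeval (fun i => ∑ b, (C (c (Pi.single b 1) i) : MvPolynomial (Fin (n + 1)) K) * X b)
      (lift p F) = F := by
    rw [aeval_lift]
    conv_rhs => rw [← aeval_X_left_apply F]
    congr 2
    funext a
    simp only [algebraMap_eq, Finset.mul_sum]
    rw [Finset.sum_comm]
    have h2 : ∀ b, ∑ i, C (p i a) * ((C (c (Pi.single b 1) i) : MvPolynomial (Fin (n + 1)) K) *
        X b) = if b = a then X b else 0 := by
      intro b
      have h3 := congrFun (hc (Pi.single b 1)) a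
      simp only [Finset.sum_apply, Pi.smul_apply, smul_eq_mul] at h3
      have h4 : ∑ i, C (p i a) * ((C (c (Pi.single b 1) i) : MvPolynomial (Fin (n + 1)) K) *
          X b) = C (∑ i, c (Pi.single b 1) i * p i a) * X b := by
        rw [map_sum, Finset.sum_mul]
        apply Finset.sum_congr rfl
        intro i _
        rw [C_mul]; ring
      rw [h4, h3]
      by_cases hb : b = a
      · subst hb; simp
      · rw [if_neg hb, Pi.single_eq_of_ne (Ne.symm hb)]; simp
    rw [Finset.sum_congr rfl (fun b _ => h2 b)]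
    simp
  rw [← h1, h0, map_zero]

theorem lift_hom {n : ℕ} (p : ι → Fin (n + 1) → K) {F : MvPolynomial (Fin (n + 1)) K} {d : ℕ}
    (hF : F.IsHomogeneous d) : (lift p F).IsHomogeneous d := by
  have h1 := hF.aeval (fun a => ∑ i, (C (p i a) : MvPolynomial ι K) * X i)
    (n := 1) (fun a => IsHomogeneous.sum _ _ _ (fun i _ => isHomogeneous_C_mul_X _ _))
  rw [one_mul] at h1
  exact h1

theorem Cfg.fm {n : ℕ} {s : ι → K} {p : ι → Fin (n + 1) → K} (h : Cfg s p) {d k : ℕ}
    {F : MvPolynomial (Fin (n + 1)) K} (hF0 : F ≠ 0) (hF : F.IsHomogeneous d)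
    (hmem : ∀ i, F ∈ pIdeal (p i) ^ k) : Fm s d (fun _ => (d : ℤ) - k) (lift p F) := by
  classical
  refine ⟨h.lift_ne hF0, lift_hom p hF, ?_, ?_⟩
  · intro i
    have hhom := lift_hom p hF
    have h1 := deg_of_dvd (lift p F) d k hhom i 1 one_ne_zero ?_
    · obtain ⟨e0, he0⟩ := support_nonempty.2 (h.lift_ne hF0)
      have h0 := h1 e0 he0
      have h2 : (lift p F).degreeOf i ≤ d - k := by
        rw [degreeOf_le_iff]
        intro e he
        have := h1 e he
        omega
      omega
    · rw [aeval_lift]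
      apply dvd_of_mem_pow (hmem i)
      intro a
      have h2 : ∑ j, algebraMap K (MvPolynomial ι K) (p j a) *
          (if j = i then (C 1 : MvPolynomial ι K) else X i * X j) -
          algebraMap K (MvPolynomial ι K) (p i a) =
          X i * ∑ j ∈ univ.erase i, C (p j a) * X j := by
        rw [← Finset.add_sum_erase _ _ (Finset.mem_univ i), if_pos rfl, Finset.mul_sum]
        have h3 : ∑ j ∈ univ.erase i, algebraMap K (MvPolynomial ι K) (p j a) *
            (if j = i then (C 1 : MvPolynomial ι K) else X i * X j) =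
            ∑ j ∈ univ.erase i, X i * (C (p j a) * X j) := by
          apply Finset.sum_congr rfl
          intro j hj
          rw [if_neg (Finset.ne_of_mem_erase hj), algebraMap_eq]
          ring
        rw [h3, C_1]
        ring
      rw [h2]
      exact Dvd.intro _ rfl
  · intro A _ _ y u v
    rw [aeval_lift, aeval_lift]
    congr 2
    funext a
    have h1 := congrFun h.rel1 a
    have h2 := congrFun h.rel2 a
    simp only [Finset.sum_apply, Pi.smul_apply, smul_eq_mul, Pi.zero_apply] at h1 h2
    have h3 : ∑ i, algebraMap K A (p i a) * (y i + u + v * algebraMap K A (s i)) =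
        ∑ i, algebraMap K A (p i a) * y i + u * algebraMap K A (∑ i, p i a) +
        v * algebraMap K A (∑ i, s i * p i a) := by
      rw [map_sum, map_sum, Finset.mul_sum, Finset.mul_sum, ← Finset.sum_add_distrib,
        ← Finset.sum_add_distrib]
      apply Finset.sum_congr rfl
      intro i _
      rw [map_mul]; ring
    rw [h3, h1, h2, map_zero]
    ring

theorem Cfg.lower {n h : ℕ} {s : Fin h × Bool → K} {p : Fin h × Bool → Fin (n + 1) → K}
    (hc : Cfg s p) {d k : ℕ} {F : MvPolynomial (Fin (n + 1)) K} (hF0 : F ≠ 0)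
    (hF : F.IsHomogeneous d) (hmem : ∀ i, F ∈ pIdeal (p i) ^ k) :
    2 * (h : ℤ) * (h - 1) * k ≤ (2 * (h : ℤ) ^ 2 - 4 * h + 1) * d :=
  lower_core hc.inj (hc.fm hF0 hF hmem)

end Pool.Agent.R841.IDeg
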