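import Pool.Agent.R841.IDeg.Config

set_option autoImplicit false
set_option linter.unusedSectionVars false

namespace Pool.Agent.R841.IDeg

open MvPolynomial Finset

universe u

variable {K : Type u} [Field K]

/-- the linear form of a functional -/
noncomputable def Lf {n : ℕ} (φ : (Fin (n + 1) → K) →ₗ[K] K) : MvPolynomial (Fin (n + 1)) K :=
  ∑ a, C (φ (Pi.single a 1)) * X a

theorem eval_Lf {n : ℕ} (φ : (Fin (n + 1) → K) →ₗ[K] K) (v : Fin (n + 1) → K) :
    eval v (Lf φ) = φ v := by
  rw [Lf, map_sum, LinearMap.pi_apply_eq_sum_univ φ v]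
  apply Finset.sum_congr rfl
  intro a _
  have h1 : (Pi.single a 1 : Fin (n + 1) → K) = fun j => if a = j then 1 else 0 := by
    funext j
    simp [Pi.single_apply, eq_comm]
  rw [map_mul, eval_C, eval_X, h1, smul_eq_mul, mul_comm]

theorem Lf_hom {n : ℕ} (φ : (Fin (n + 1) → K) →ₗ[K] K) : (Lf φ).IsHomogeneous 1 :=
  IsHomogeneous.sum _ _ _ (fun _ _ => isHomogeneous_C_mul_X _ _)

theorem mem_pIdeal {n : ℕ} {v : Fin (n + 1) → K} {f : MvPolynomial (Fin (n + 1)) K} {d : ℕ}
    (hf : f.IsHomogeneous d) (h : eval v f = 0) : f ∈ pIdeal v :=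
  Ideal.subset_span ⟨⟨d, hf⟩, h⟩

theorem prod_mem_pow {R : Type*} [CommRing R] (J : Ideal R) {m : ℕ} (x : Fin m → R)
    (h : ∀ a, x a ∈ J) : ∏ a, x a ∈ J ^ m := by
  have h1 := Ideal.prod_mem_prod (I := fun _ : Fin m => J) (s := Finset.univ) (x := x)
    (fun a _ => h a)
  rwa [Finset.prod_const, Finset.card_univ, Fintype.card_fin] at h1

theorem det_mem_pow {R : Type*} [CommRing R] (J : Ideal R) {m : ℕ} (M : Matrix (Fin m) (Fin m) R)
    (h : ∀ a b, M a b ∈ J) : M.det ∈ J ^ m := by
  rw [Matrix.det_apply']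
  exact Ideal.sum_mem _ (fun σ _ => Ideal.mul_mem_left _ _ (prod_mem_pow J _ (fun a => h _ _)))

theorem det_mem_pow' {R : Type*} [CommRing R] (J : Ideal R) {m : ℕ}
    (M : Matrix (Fin (m + 1)) (Fin (m + 1)) R)
    (h : ∀ (a : Fin m) b, M a.succ b ∈ J) : M.det ∈ J ^ m := by
  rw [← Matrix.det_transpose, Matrix.det_apply']
  apply Ideal.sum_mem _ (fun σ _ => Ideal.mul_mem_left _ _ ?_)
  rw [Fin.prod_univ_succ]
  apply Ideal.mul_mem_left
  exact prod_mem_pow J _ (fun a => h _ _)

theorem det_hom {σ : Type} {m : ℕ} (M : Matrix (Fin m) (Fin m) (MvPolynomial σ K))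
    (h : ∀ a b, (M a b).IsHomogeneous 1) : M.det.IsHomogeneous m := by
  rw [Matrix.det_apply']
  apply IsHomogeneous.sum
  intro τ _
  have h1 : (∏ i, M (τ i) i).IsHomogeneous (∑ _i : Fin m, 1) :=
    IsHomogeneous.prod _ _ _ (fun i _ => h _ _)
  have h2 : ∑ _i : Fin m, 1 = m := by simp
  rw [h2] at h1
  have h3 : ((Equiv.Perm.sign τ : ℤ) : MvPolynomial σ K) = C ((Equiv.Perm.sign τ : ℤ) : K) := by
    simp
  rw [h3]
  exact h1.C_mul _

variable {ι : Type} [Fintype ι] [DecidableEq ι]

theorem exists_functional {n : ℕ} (hcard : Fintype.card ι = n + 3) {s : ι → K}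
    {p : ι → Fin (n + 1) → K} (hc : Cfg s p) (f : Polynomial K) (hf : f.natDegree ≤ n) :
    ∃ φ : (Fin (n + 1) → K) →ₗ[K] K, ∀ i,
      φ (p i) = (∏ j ∈ univ.erase i, (s i - s j))⁻¹ * f.eval (s i) := by
  classical
  set w : ι → K := fun i => (∏ j ∈ univ.erase i, (s i - s j))⁻¹ with hw
  let lam : (ι → K) →ₗ[K] K :=
    { toFun := fun c => ∑ i, c i * (w i * f.eval (s i))
      map_add' := fun c d => by
        rw [← Finset.sum_add_distrib]
        exact Finset.sum_congr rfl (fun i _ => by rw [Pi.add_apply]; ring)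
      map_smul' := fun r c => by
        rw [RingHom.id_apply, smul_eq_mul, Finset.mul_sum]
        exact Finset.sum_congr rfl (fun i _ => by rw [Pi.smul_apply, smul_eq_mul]; ring) }
  have hlam : ∀ c, lam c = ∑ i, c i * (w i * f.eval (s i)) := fun c => rfl
  have hker : ∀ c : ι → K, lc p c = 0 → lam c = 0 := by
    intro c hcc
    obtain ⟨u, v, huv⟩ := hc.ker c hcc
    set g : Polynomial K := (Polynomial.C u + Polynomial.C v * Polynomial.X) * f with hg
    have hgd : g.natDegree ≤ n + 1 := by
      rw [hg]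
      refine Polynomial.natDegree_mul_le.trans ?_
      have h1 : (Polynomial.C u + Polynomial.C v * Polynomial.X : Polynomial K).natDegree ≤ 1 := by
        refine (Polynomial.natDegree_add_le _ _).trans ?_
        rw [Polynomial.natDegree_C]
        have := Polynomial.natDegree_C_mul_le v (Polynomial.X : Polynomial K)
        rw [Polynomial.natDegree_X] at this
        omega
      omega
    have hdeg : g.degree < (#(univ : Finset ι) : WithBot ℕ) := by
      rw [Finset.card_univ, hcard]
      refine lt_of_le_of_lt Polynomial.degree_le_natDegree ?_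
      exact_mod_cast (by omega : g.natDegree < n + 3)
    have h1 := Lagrange.coeff_eq_sum (s := (univ : Finset ι)) (v := s) (hc.inj.injOn) hdeg
    have h2 : g.coeff (#(univ : Finset ι) - 1) = 0 := by
      apply Polynomial.coeff_eq_zero_of_natDegree_lt
      rw [Finset.card_univ, hcard]
      omega
    rw [h2] at h1
    rw [hlam, h1]
    apply Finset.sum_congr rfl
    intro i _
    rw [huv i, hg, hw, Polynomial.eval_mul, Polynomial.eval_add, Polynomial.eval_mul,
      Polynomial.eval_C, Polynomial.eval_C, Polynomial.eval_X, div_eq_mul_inv]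
    ring
  have hsurj : Function.Surjective (lc p) := fun v => by
    obtain ⟨c, hc'⟩ := hc.surj v
    exact ⟨c, hc'⟩
  obtain ⟨g, hg⟩ := LinearMap.exists_rightInverse_of_surjective (lc p)
    (LinearMap.range_eq_top.2 hsurj)
  refine ⟨lam.comp g, ?_⟩
  intro i
  have h1 : lc p (g (p i) - Pi.single i 1) = 0 := by
    rw [map_sub]
    have h2 : lc p (g (p i)) = p i := by
      have := LinearMap.congr_fun hg (p i)
      simpa using this
    have h3 : lc p (Pi.single i 1) = p i := by
      rw [lc_apply, Finset.sum_eq_single i]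
      · simp
      · intro j _ hj
        rw [Pi.single_eq_of_ne hj, zero_smul]
      · intro h; exact absurd (Finset.mem_univ i) h
    rw [h2, h3, sub_self]
  have h2 := hker _ h1
  rw [map_sub, sub_eq_zero] at h2
  rw [LinearMap.comp_apply, h2, hlam, Finset.sum_eq_single i]
  · simp [hw]
  · intro j _ hj
    rw [Pi.single_eq_of_ne hj, zero_mul]
  · intro h; exact absurd (Finset.mem_univ i) h

/-- **The hypersurfaces `D_{I,t}`**: cones over secant varieties of rational normal curves. -/
theorem exists_D {n : ℕ} (hcard : Fintype.card ι = n + 3) {s : ι → K}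
    {p : ι → Fin (n + 1) → K} (hc : Cfg s p) (I : Finset ι) (t : ℕ) (hI : I.card + 2 * t = n) :
    ∃ D : MvPolynomial (Fin (n + 1)) K, D ≠ 0 ∧ D.IsHomogeneous (t + 1) ∧
      (∀ i, D ∈ pIdeal (p i) ^ t) ∧ ∀ i ∈ I, D ∈ pIdeal (p i) ^ (t + 1) := by
  classical
  set π : Polynomial K := ∏ i ∈ I, (Polynomial.X - Polynomial.C (s i)) with hπ
  have hπd : π.natDegree = I.card := by
    rw [hπ]
    exact Polynomial.natDegree_finsetProd_X_sub_C_eq_card _ _
  set w : ι → K := fun i => (∏ j ∈ univ.erase i, (s i - s j))⁻¹ with hw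
  have hw0 : ∀ i, w i ≠ 0 := by
    intro i
    rw [hw]
    apply inv_ne_zero
    rw [Finset.prod_ne_zero_iff]
    intro j hj
    exact sub_ne_zero.2 (hc.inj.ne (Ne.symm (Finset.ne_of_mem_erase hj)))
  have hex : ∀ j : ℕ, ∃ φ : (Fin (n + 1) → K) →ₗ[K] K, j ≤ 2 * t →
      ∀ i, φ (p i) = w i * (π.eval (s i) * s i ^ j) := by
    intro j
    by_cases hj : j ≤ 2 * t
    · obtain ⟨φ, hφ⟩ := exists_functional hcard hc (π * Polynomial.X ^ j) (by
        refine Polynomial.natDegree_mul_le.trans ?_
        rw [hπd, Polynomial.natDegree_X_pow]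
        omega)
      refine ⟨φ, fun _ i => ?_⟩
      rw [hφ i]
      simp [hw]
    · exact ⟨0, fun h => absurd h hj⟩
  choose φ hφ using hex
  set H : Matrix (Fin (t + 1)) (Fin (t + 1)) (MvPolynomial (Fin (n + 1)) K) :=
    Matrix.of (fun a b => Lf (φ (a.val + b.val))) with hH
  have hHab : ∀ a b, H a b = Lf (φ (a.val + b.val)) := fun a b => rfl
  have hle : ∀ a b : Fin (t + 1), a.val + b.val ≤ 2 * t := by
    intro a b
    have := a.isLt
    have := b.isLt
    omega
  refine ⟨H.det, ?_, det_hom H (fun a b => Lf_hom _), ?_, ?_⟩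
  · intro h0
    -- choose `t + 1` points outside `I`
    have hcardI : t + 1 ≤ (univ \ I).card := by
      rw [Finset.card_sdiff, Finset.inter_univ, Finset.card_univ, hcard]
      omega
    obtain ⟨S, hS, hScard⟩ := Finset.exists_subset_card_eq hcardI
    let τ : Fin (t + 1) → ι := fun c => ((S.equivFinOfCardEq hScard).symm c : ι)
    have hτinj : Function.Injective τ := by
      intro a b hab
      exact (S.equivFinOfCardEq hScard).symm.injective (Subtype.ext hab)
    have hτI : ∀ c, τ c ∉ I := by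
      intro c
      have h1 : τ c ∈ S := ((S.equivFinOfCardEq hScard).symm c).2
      have h2 := hS h1
      rw [Finset.mem_sdiff] at h2
      exact h2.2
    set x : Fin (n + 1) → K := ∑ c, p (τ c) with hx
    set dd : Fin (t + 1) → K := fun c => w (τ c) * π.eval (s (τ c)) with hdd
    have hmat : (eval x).mapMatrix H = (Matrix.vandermonde (fun c => s (τ c))).transpose *
        Matrix.diagonal dd * Matrix.vandermonde (fun c => s (τ c)) := by
      ext a b
      rw [RingHom.mapMatrix_apply, Matrix.map_apply, hHab, eval_Lf, hx, map_sum,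
        Matrix.mul_apply]
      apply Finset.sum_congr rfl
      intro c _
      rw [hφ _ (hle a b), Matrix.mul_diagonal, Matrix.transpose_apply, Matrix.vandermonde_apply,
        Matrix.vandermonde_apply, hdd]
      simp only
      rw [pow_add]
      ring
    have h1 : (eval x) H.det = 0 := by rw [h0, map_zero]
    rw [RingHom.map_det, hmat, Matrix.det_mul, Matrix.det_mul, Matrix.det_transpose,
      Matrix.det_diagonal] at h1
    have hv : (Matrix.vandermonde (fun c => s (τ c))).det ≠ 0 := by
      rw [Matrix.det_vandermonde_ne_zero_iff]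
      exact hc.inj.comp hτinj
    have hd0 : ∏ c, dd c ≠ 0 := by
      rw [Finset.prod_ne_zero_iff]
      intro c _
      rw [hdd]
      apply mul_ne_zero (hw0 _)
      rw [hπ, Polynomial.eval_prod, Finset.prod_ne_zero_iff]
      intro i hi
      simp only [Polynomial.eval_sub, Polynomial.eval_X, Polynomial.eval_C]
      apply sub_ne_zero.2 (hc.inj.ne _)
      intro h
      apply hτI c
      rw [h]
      exact hi
    exact mul_ne_zero (mul_ne_zero hv hd0) hv h1
  · intro i
    set M : Matrix (Fin (t + 1)) (Fin (t + 1)) (MvPolynomial (Fin (n + 1)) K) :=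
      Matrix.of (fun a b => Fin.cases (H 0 b) (fun a' => H a'.succ b - C (s i) * H a'.castSucc b) a)
      with hM
    have hdet : H.det = M.det := by
      apply Matrix.det_eq_of_forall_row_eq_smul_add_pred (fun _ => C (s i))
      · intro j; rfl
      · intro a j
        have h1 : M a.succ j = H a.succ j - C (s i) * H a.castSucc j := rfl
        rw [h1]
        ring
    rw [hdet]
    apply det_mem_pow'
    intro a b
    have h1 : M a.succ b = H a.succ b - C (s i) * H a.castSucc b := rfl
    rw [h1]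
    apply mem_pIdeal (d := 1)
    · exact (Lf_hom _).sub ((Lf_hom _).C_mul _)
    · rw [map_sub, map_mul, eval_C, hHab, hHab, eval_Lf, eval_Lf, hφ _ (hle _ _),
        hφ _ (hle _ _)]
      have h2 : (a.succ : Fin (t + 1)).val + b.val = (a.castSucc : Fin (t + 1)).val + b.val + 1 := by
        simp; ring
      rw [h2, pow_succ]
      ring
  · intro i hi
    apply det_mem_pow
    intro a b
    apply mem_pIdeal (Lf_hom _)
    rw [eval_Lf, hφ _ (hle _ _)]
    have h1 : π.eval (s i) = 0 := by
      rw [hπ, Polynomial.eval_prod]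
      exact Finset.prod_eq_zero hi (by simp)
    rw [h1]
    ring

/-- there is a form of degree `d` with multiplicity at least `k` at all the points -/
def Cl {n : ℕ} (p : ι → Fin (n + 1) → K) (d k : ℕ) : Prop :=
  ∃ F : MvPolynomial (Fin (n + 1)) K, F ≠ 0 ∧ F.IsHomogeneous d ∧ ∀ i, F ∈ pIdeal (p i) ^ k

theorem Cl.mul {n : ℕ} {p : ι → Fin (n + 1) → K} {d k d' k' : ℕ} (h : Cl p d k)
    (h' : Cl p d' k') : Cl p (d + d') (k + k') := by
  obtain ⟨F, h1, h2, h3⟩ := h
  obtain ⟨F', h1', h2', h3'⟩ := h'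
  refine ⟨F * F', mul_ne_zero h1 h1', h2.mul h2', fun i => ?_⟩
  rw [pow_add]
  exact Ideal.mul_mem_mul (h3 i) (h3' i)

theorem Cl.one {n : ℕ} (p : ι → Fin (n + 1) → K) : Cl p 0 0 :=
  ⟨1, one_ne_zero, isHomogeneous_one _ _, fun i => by simp⟩

theorem Cl.tau {g : ℕ} (hcard : Fintype.card ι = (2 * g + 1) + 3) {s : ι → K}
    {p : ι → Fin ((2 * g + 1) + 1) → K} (hc : Cfg s p) (τ : ℕ) (hτ : τ ≤ g) : Cl p (τ + 1) τ := by
  obtain ⟨I, -, hI⟩ := Finset.exists_subset_card_eq (s := (univ : Finset ι))
    (n := 2 * g + 1 - 2 * τ) (by rw [Finset.card_univ, hcard]; omega)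
  obtain ⟨D, h1, h2, h3, -⟩ := exists_D hcard hc I τ (by rw [hI]; omega)
  exact ⟨D, h1, h2, h3⟩

theorem Cl.w {g : ℕ} (hcard : Fintype.card ι = (2 * g + 1) + 3) {s : ι → K}
    {p : ι → Fin ((2 * g + 1) + 1) → K} (hc : Cfg s p) (w : ℕ) (hw : w ≤ g + 1) :
    Cl p ((2 * w + 1) * (g + 1) + w) ((2 * w + 1) * g + w) := by
  classical
  rcases Nat.eq_zero_or_pos w with h0 | hpos
  · subst h0
    simpa using Cl.tau hcard hc g le_rfl
  · obtain ⟨A, -, hA⟩ := Finset.exists_subset_card_eq (s := (univ : Finset ι))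
      (n := 2 * w + 1) (by rw [Finset.card_univ, hcard]; omega)
    have hI : (univ \ A).card + 2 * (w - 1) = 2 * g + 1 := by
      rw [Finset.card_sdiff, Finset.inter_univ, Finset.card_univ, hcard, hA]
      omega
    obtain ⟨D, h1, h2, h3, h4⟩ := exists_D hcard hc (univ \ A) (w - 1) hI
    have hex : ∀ i : ι, ∃ D : MvPolynomial (Fin ((2 * g + 1) + 1)) K, D ≠ 0 ∧
        D.IsHomogeneous (g + 1) ∧ (∀ j, D ∈ pIdeal (p j) ^ g) ∧ D ∈ pIdeal (p i) ^ (g + 1) := by
      intro i
      obtain ⟨D, h1, h2, h3, h4⟩ := exists_D hcard hc {i} g (by rw [Finset.card_singleton]; omega)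
      exact ⟨D, h1, h2, h3, h4 i (Finset.mem_singleton_self i)⟩
    choose E hE1 hE2 hE3 hE4 using hex
    refine ⟨(∏ i ∈ A, E i) * D, mul_ne_zero (Finset.prod_ne_zero_iff.2 (fun i _ => hE1 i)) h1,
      ?_, ?_⟩
    · have h5 : (∏ i ∈ A, E i).IsHomogeneous (∑ _i ∈ A, (g + 1)) :=
        IsHomogeneous.prod _ _ _ (fun i _ => hE2 i)
      rw [Finset.sum_const, hA, smul_eq_mul] at h5
      have h6 := h5.mul h2
      have h7 : w - 1 + 1 = w := by omega
      rwa [h7] at h6
    · intro j
      have h5 : ∏ i ∈ A, E i ∈ ∏ i ∈ A, pIdeal (p j) ^ (g + if i = j then 1 else 0) := by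
        apply Ideal.prod_mem_prod
        intro i _
        by_cases hij : i = j
        · subst hij
          rw [if_pos rfl]
          exact hE4 i
        · rw [if_neg hij, add_zero]
          exact hE3 i j
      rw [Finset.prod_pow_eq_pow_sum, Finset.sum_add_distrib, Finset.sum_const, hA,
        Finset.sum_ite_eq', smul_eq_mul] at h5
      have h6 : D ∈ pIdeal (p j) ^ ((w - 1) + if j ∈ A then 0 else 1) := by
        by_cases hj : j ∈ A
        · rw [if_pos hj, add_zero]; exact h3 j
        · rw [if_neg hj]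
          exact h4 j (by rw [Finset.mem_sdiff]; exact ⟨Finset.mem_univ j, hj⟩)
      have h7 := Ideal.mul_mem_mul h5 h6
      rw [← pow_add] at h7
      have h8 : (2 * w + 1) * g + (if j ∈ A then 1 else 0) +
          (w - 1 + if j ∈ A then 0 else 1) = (2 * w + 1) * g + w := by
        split_ifs <;> omega
      rwa [h8] at h7

theorem Cl.comb1 {g : ℕ} (hcard : Fintype.card ι = (2 * g + 1) + 3) {s : ι → K}
    {p : ι → Fin ((2 * g + 1) + 1) → K} (hc : Cfg s p) (M : ℕ) :
    ∀ W : ℕ, W ≤ (g + 1) * M → Cl p ((M + 2 * W) * (g + 1) + W) ((M + 2 * W) * g + W) := by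
  induction M with
  | zero =>
    intro W hW
    have : W = 0 := by omega
    subst this
    simpa using Cl.one p
  | succ M ih =>
    intro W hW
    set w := min (g + 1) W with hw
    have hwg : w ≤ g + 1 := min_le_left _ _
    have hwW : w ≤ W := min_le_right _ _
    have h1 : W - w ≤ (g + 1) * M := by
      rw [Nat.mul_succ] at hW
      rcases le_total (g + 1) W with h | h
      · have : w = g + 1 := min_eq_left h
        omega
      · have : w = W := min_eq_right h
        omega
    have h2 := (Cl.w hcard hc w hwg).mul (ih (W - w) h1)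
    obtain ⟨z, hz⟩ := Nat.exists_eq_add_of_le hwW
    have h3 : W - w = z := by omega
    rw [h3] at h2
    convert! h2 using 1
    · rw [hz]; ring
    · rw [hz]; ring

theorem Cl.comb2 {g : ℕ} (hcard : Fintype.card ι = (2 * g + 1) + 3) {s : ι → K}
    {p : ι → Fin ((2 * g + 1) + 1) → K} (hc : Cfg s p) (e : ℕ) :
    ∀ k : ℕ, k ≤ e * g → Cl p (e + k) k := by
  induction e with
  | zero =>
    intro k hk
    have : k = 0 := by omega
    subst this
    simpa using Cl.one p
  | succ e ih =>
    intro k hk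
    set τ := min g k with hτ
    have h1 : τ ≤ g := min_le_left _ _
    have h2 : τ ≤ k := min_le_right _ _
    have h3 : k - τ ≤ e * g := by
      rw [Nat.succ_mul] at hk
      rcases le_total g k with h | h
      · have : τ = g := min_eq_left h
        omega
      · have : τ = k := min_eq_right h
        omega
    have h4 := (Cl.tau hcard hc τ h1).mul (ih (k - τ) h3)
    convert! h4 using 1 <;> omega

/-- **The upper bound.** -/
theorem Cfg.upper {g : ℕ} (hcard : Fintype.card ι = (2 * g + 1) + 3) {s : ι → K}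
    {p : ι → Fin ((2 * g + 1) + 1) → K} (hc : Cfg s p) (d k : ℕ)
    (h : 2 * (g + 2) * (g + 1) * k ≤ (2 * g ^ 2 + 4 * g + 1) * d) : Cl p d k := by
  rcases le_or_gt ((g + 1) * k) (g * d) with h1 | h1
  · have hkd : k ≤ d := by
      by_contra hlt
      push Not at hlt
      have : g * d ≤ g * k := Nat.mul_le_mul_left g hlt.le
      nlinarith
    obtain ⟨e, rfl⟩ := Nat.exists_eq_add_of_le hkd
    have h2 : k ≤ e * g := by nlinarith
    have h3 := Cl.comb2 hcard hc e k h2
    rwa [Nat.add_comm e k] at h3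
  · -- second case
    have hM : (0 : ℤ) ≤ (2 * g + 1) * d - (2 * g + 3) * k := by
      have h2 : ((g : ℤ) * d) < (g + 1) * k := by exact_mod_cast h1
      have h3 : (2 * ((g : ℤ) + 2) * (g + 1) * k) ≤ (2 * (g : ℤ) ^ 2 + 4 * g + 1) * d := by
        exact_mod_cast h
      have h4 : 0 < ((g : ℤ) + 1) * ((2 * g + 1) * d - (2 * g + 3) * k) := by nlinarith
      have h5 : (0 : ℤ) < (g : ℤ) + 1 := by positivity
      exact ((mul_pos_iff_of_pos_left h5).1 h4).le
    obtain ⟨M, hM'⟩ := Int.eq_ofNat_of_zero_le hM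
    obtain ⟨W, hW'⟩ := Nat.exists_eq_add_of_lt h1
    have hWM : W + 1 ≤ (g + 1) * M := by
      have h3 : (2 * ((g : ℤ) + 2) * (g + 1) * k) ≤ (2 * (g : ℤ) ^ 2 + 4 * g + 1) * d := by
        exact_mod_cast h
      have h6 : ((g : ℤ) + 1) * k = g * d + W + 1 := by exact_mod_cast hW'
      have h7 : ((W : ℤ) + 1) ≤ (g + 1) * M := by
        rw [← hM']
        nlinarith
      exact_mod_cast h7
    have h8 := Cl.comb1 hcard hc M (W + 1) hWM
    have h6 : ((g : ℤ) + 1) * k = g * d + W + 1 := by exact_mod_cast hW'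
    have h9 : (M + 2 * (W + 1)) * (g + 1) + (W + 1) = d := by
      zify
      rw [← hM']
      nlinarith
    have h10 : (M + 2 * (W + 1)) * g + (W + 1) = k := by
      zify
      rw [← hM']
      nlinarith
    rw [h9, h10] at h8
    exact h8

end Pool.Agent.R841.IDeg
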